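import Mathlib
import Pool.Agent.Helper605.Kill

set_option autoImplicit false

namespace Pool.Agent.Y552.SJ

open Matrix Finset

/-- Elementary strong shift equivalence over `S`. -/
def ESS (S : Subring ℝ) (X Y : Σ d : ℕ, Matrix (Fin d) (Fin d) ℝ) : Prop :=
  ∃ (R : Matrix (Fin X.1) (Fin Y.1) ℝ) (T : Matrix (Fin Y.1) (Fin X.1) ℝ),
    (∀ i j, R i j ∈ S) ∧ (∀ i j, T i j ∈ S) ∧ X.2 = R * T ∧ Y.2 = T * R

theorem mul_mem' {S : Subring ℝ} {a b c : Type*} [Fintype b] {M : Matrix a b ℝ} {N : Matrix b c ℝ}
    (hM : ∀ i j, M i j ∈ S) (hN : ∀ i j, N i j ∈ S) : ∀ i j, (M * N) i j ∈ S := by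
  intro i j
  rw [Matrix.mul_apply]
  exact S.sum_mem fun k _ => S.mul_mem (hM i k) (hN k j)

theorem transvection_mem {S : Subring ℝ} {n : ℕ} (i j : Fin n) {c : ℝ} (hc : c ∈ S) :
    ∀ k l, transvection i j c k l ∈ S := by
  intro k l
  rw [transvection, Matrix.add_apply]
  refine S.add_mem ?_ ?_
  · rw [Matrix.one_apply]; split_ifs; exacts [S.one_mem, S.zero_mem]
  · rw [Matrix.single_apply]; split_ifs; exacts [hc, S.zero_mem]

theorem conj_apply {n : ℕ} (M : Matrix (Fin n) (Fin n) ℝ) (i j : Fin n) (c : ℝ) (k l : Fin n) :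
    (transvection i j (-c) * M * transvection i j c) k l =
      M k l + (if l = j then c * M k i else 0) -
        (if k = i then c * (M j l + if l = j then c * M j i else 0) else 0) := by
  have h1 : ∀ (N : Matrix (Fin n) (Fin n) ℝ) (k l : Fin n),
      (N * transvection i j c) k l = N k l + (if l = j then c * N k i else 0) := by
    intro N k l
    split_ifs with h
    · subst h; rw [mul_transvection_apply_same]
    · rw [mul_transvection_apply_of_ne _ _ _ _ h, add_zero]
  have h2 : ∀ (k l : Fin n), (transvection i j (-c) * M) k l = M k l - (if k = i then c * M j l else 0) := by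
    intro k l
    split_ifs with h
    · subst h; rw [transvection_mul_apply_same]; ring
    · rw [transvection_mul_apply_of_ne _ _ _ _ h, sub_zero]
  rw [h1, h2, h2]
  split_ifs <;> ring

theorem conj_ess {S : Subring ℝ} {n : ℕ} (M : Matrix (Fin n) (Fin n) ℝ) (hM : ∀ i j, M i j ∈ S)
    (i j : Fin n) (hij : i ≠ j) (c : ℝ) (hc : c ∈ S) :
    ESS S ⟨n, M⟩ ⟨n, transvection i j (-c) * M * transvection i j c⟩ := by
  refine ⟨transvection i j c, transvection i j (-c) * M, transvection_mem i j hc,
    mul_mem' (transvection_mem i j (S.neg_mem hc)) hM, ?_, rfl⟩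
  change M = _
  rw [← Matrix.mul_assoc, transvection_mul_transvection_same _ _ hij]
  simp

theorem split_row {S : Subring ℝ} {n m : ℕ} (A : Matrix (Fin n) (Fin n) ℝ) (f : Fin m → Fin n)
    (R : Matrix (Fin m) (Fin n) ℝ) (hR : ∀ i j, R i j ∈ S)
    (h : ∀ v l, ∑ a with f a = v, R a l = A v l) :
    ESS S ⟨n, A⟩ ⟨m, Matrix.of fun a b => R a (f b)⟩ := by
  refine ⟨Matrix.of fun v a => if f a = v then 1 else 0, R, ?_, hR, ?_, ?_⟩
  · intro v a
    simp only [Matrix.of_apply]
    split_ifs
    exacts [S.one_mem, S.zero_mem]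
  · ext v l
    change A v l = _
    rw [Matrix.mul_apply, ← h v l, Finset.sum_filter]
    apply Finset.sum_congr rfl
    intro a _
    simp [Matrix.of_apply]
  · ext a b
    change R a (f b) = _
    rw [Matrix.mul_apply]
    simp [Matrix.of_apply]

theorem split_col {S : Subring ℝ} {n m : ℕ} (A : Matrix (Fin n) (Fin n) ℝ) (f : Fin m → Fin n)
    (R : Matrix (Fin n) (Fin m) ℝ) (hR : ∀ i j, R i j ∈ S)
    (h : ∀ v l, ∑ b with f b = l, R v b = A v l) :
    A = R * (Matrix.of fun b l => if f b = l then (1 : ℝ) else 0) ∧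
    (Matrix.of fun a b => R (f a) b) = (Matrix.of fun b l => if f b = l then (1 : ℝ) else 0) * R ∧
    ESS S ⟨n, A⟩ ⟨m, Matrix.of fun a b => R (f a) b⟩ := by
  have h1 : A = R * (Matrix.of fun b l => if f b = l then (1 : ℝ) else 0) := by
    ext v l
    rw [Matrix.mul_apply, ← h v l, Finset.sum_filter]
    apply Finset.sum_congr rfl
    intro a _
    simp [Matrix.of_apply]
  have h2 : (Matrix.of fun a b => R (f a) b) = (Matrix.of fun b l => if f b = l then (1 : ℝ) else 0) * R := by
    ext a b
    rw [Matrix.mul_apply]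
    simp [Matrix.of_apply]
  refine ⟨h1, h2, R, Matrix.of fun b l => if f b = l then (1 : ℝ) else 0, hR, ?_, h1, h2⟩
  intro v a
  simp only [Matrix.of_apply]
  split_ifs
  exacts [S.one_mem, S.zero_mem]

/-- No edges leave a proper nonempty set of vertices. -/
def Irr {n : ℕ} (A : Matrix (Fin n) (Fin n) ℝ) : Prop :=
  ∀ T : Set (Fin n), T.Nonempty → T ≠ Set.univ → ∃ a ∈ T, ∃ b ∉ T, 0 < A a b

theorem irr_of_pow {n : ℕ} (A : Matrix (Fin n) (Fin n) ℝ) (h0 : ∀ i j, 0 ≤ A i j) (m : ℕ)
    (hm : ∀ i j, 0 < (A ^ m) i j) : Irr A := by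
  intro T hT hT'
  by_contra hcon
  push Not at hcon
  have hz : ∀ a ∈ T, ∀ b ∉ T, A a b = 0 := fun a ha b hb => le_antisymm (hcon a ha b hb) (h0 a b)
  have hk : ∀ k : ℕ, ∀ a ∈ T, ∀ b ∉ T, (A ^ k) a b = 0 := by
    intro k
    induction k with
    | zero =>
      intro a ha b hb
      rw [pow_zero, Matrix.one_apply_ne]
      rintro rfl
      exact hb ha
    | succ k ih =>
      intro a ha b hb
      rw [pow_succ, Matrix.mul_apply]
      apply Finset.sum_eq_zero
      intro c _
      by_cases hc : c ∈ T
      · rw [hz c hc b hb, mul_zero]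
      · rw [ih a ha c hc, zero_mul]
  obtain ⟨a, ha⟩ := hT
  obtain ⟨b, hb⟩ := (Set.ne_univ_iff_exists_notMem T).mp hT'
  have := hm a b
  rw [hk m a ha b hb] at this
  exact lt_irrefl _ this

theorem phase2 (S : Subring ℝ) (hS : S ≠ ⊥) {n : ℕ} : ∀ (N : ℕ) (A : Matrix (Fin n) (Fin n) ℝ),
    #{p : Fin n × Fin n | A p.1 p.2 = 0} ≤ N → (∀ i j, A i j ∈ S) → (∀ i j, 0 ≤ A i j) → Irr A →
    (∃ z, ∀ k, 0 < A k z) →
    ∃ B : Matrix (Fin n) (Fin n) ℝ, (∀ i j, B i j ∈ S) ∧ (∀ i j, 0 < B i j) ∧
      Relation.ReflTransGen (ESS S) ⟨n, A⟩ ⟨n, B⟩ := by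
  intro N
  induction N with
  | zero =>
    intro A hN hAS hA0 hI hz
    refine ⟨A, hAS, ?_, Relation.ReflTransGen.refl⟩
    intro i j
    rcases (hA0 i j).lt_or_eq with h | h
    · exact h
    · exfalso
      have h1 : (i, j) ∈ ({p : Fin n × Fin n | A p.1 p.2 = 0} : Finset _) := by
        simp [h.symm]
      have := Finset.card_pos.mpr ⟨_, h1⟩
      omega
  | succ N ih =>
    intro A hN hAS hA0 hI hz
    by_cases hall : ∀ i j, 0 < A i j
    · exact ⟨A, hAS, hall, Relation.ReflTransGen.refl⟩
    obtain ⟨z0, hz0⟩ := hz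
    obtain ⟨z, hzT, j, hjT, hzj⟩ := hI {z | ∀ k, 0 < A k z} ⟨z0, hz0⟩ (by
      intro h
      apply hall
      intro i j
      have : j ∈ {z | ∀ k, 0 < A k z} := by rw [h]; trivial
      exact this i)
    have hzT' : ∀ k, 0 < A k z := hzT
    have hj' : ∃ i, A i j = 0 := by
      by_contra hcon
      push Not at hcon
      exact hjT fun i => lt_of_le_of_ne (hA0 i j) (hcon i).symm
    obtain ⟨i, hij⟩ := hj'
    have hiz : i ≠ z := by
      rintro rfl
      rw [hij] at hzj
      exact lt_irrefl _ hzj
    have hjz : j ≠ z := by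
      rintro rfl
      exact hjT hzT
    have : Nonempty (Fin n) := ⟨z⟩
    obtain ⟨k0, hk0⟩ := Finite.exists_min fun k => A k z / (A k i + A z i + 1)
    have hpos : ∀ k, 0 < A k i + A z i + 1 := fun k => by
      have := hA0 k i
      have := hA0 z i
      linarith
    obtain ⟨s, hsS, hs0, hs1⟩ := Pool.Agent.Helper605.subring_between S hS 0
      (min 1 (A k0 z / (A k0 i + A z i + 1))) (lt_min one_pos (div_pos (hzT' k0) (hpos k0)))
    have hs1' : s < 1 := hs1.trans_le (min_le_left _ _)
    have hsk : ∀ k, s * (A k i + A z i + 1) ≤ A k z := by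
      intro k
      have h1 : s ≤ A k z / (A k i + A z i + 1) := (hs1.le.trans (min_le_right _ _)).trans (hk0 k)
      rwa [le_div_iff₀ (hpos k)] at h1
    set B := transvection i z (-(-s)) * A * transvection i z (-s) with hB
    have hBe : ∀ k l, B k l = A k l + (if l = z then (-s) * A k i else 0) -
        (if k = i then (-s) * (A z l + if l = z then (-s) * A z i else 0) else 0) := fun k l =>
      conj_apply A i z (-s) k l
    have hBS : ∀ k l, B k l ∈ S := mul_mem' (mul_mem' (transvection_mem i z (S.neg_mem (S.neg_mem hsS))) hAS)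
      (transvection_mem i z (S.neg_mem hsS))
    have hBz : ∀ k, 0 < B k z := by
      intro k
      rw [hBe k z, if_pos rfl, if_pos rfl]
      have h1 := hsk k
      have h2 := hA0 z z
      have h3 := hA0 z i
      have h4 : s * s * A z i ≤ s * A z i := by
        have : 0 ≤ s * A z i := mul_nonneg hs0.le h3
        nlinarith
      have h5 : 0 ≤ s * A z z := mul_nonneg hs0.le h2
      have h6 : 0 ≤ s * A z i := mul_nonneg hs0.le h3
      split_ifs with h
      · nlinarith
      · nlinarith
    have hBl : ∀ k l, l ≠ z → B k l = A k l + (if k = i then s * A z l else 0) := by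
      intro k l hl
      rw [hBe k l, if_neg hl, if_neg hl]
      split_ifs <;> ring
    have hBle : ∀ k l, l ≠ z → A k l ≤ B k l := by
      intro k l hl
      rw [hBl k l hl]
      have : 0 ≤ s * A z l := mul_nonneg hs0.le (hA0 z l)
      split_ifs <;> linarith
    have hB0 : ∀ k l, 0 ≤ B k l := by
      intro k l
      by_cases hl : l = z
      · subst hl; exact (hBz k).le
      · exact (hA0 k l).trans (hBle k l hl)
    have hBpos : ∀ k l, 0 < A k l → 0 < B k l := by
      intro k l h
      by_cases hl : l = z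
      · subst hl; exact hBz k
      · exact h.trans_le (hBle k l hl)
    have hBij : 0 < B i j := by
      rw [hBl i j hjz, if_pos rfl, hij, zero_add]
      exact mul_pos hs0 hzj
    obtain ⟨C, hCS, hC0, hC⟩ := ih B (by
      have hsub : (Finset.univ.filter fun p : Fin n × Fin n => B p.1 p.2 = 0) ⊂
          (Finset.univ.filter fun p : Fin n × Fin n => A p.1 p.2 = 0) := by
        rw [Finset.ssubset_iff_of_subset]
        · refine ⟨(i, j), by simp [hij], ?_⟩
          simp only [Finset.mem_filter, Finset.mem_univ, true_and]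
          exact hBij.ne'
        · intro p hp
          simp only [Finset.mem_filter, Finset.mem_univ, true_and] at hp ⊢
          by_contra hne
          exact (hBpos p.1 p.2 (lt_of_le_of_ne (hA0 _ _) (Ne.symm hne))).ne' hp
      have := Finset.card_lt_card hsub
      omega) hBS hB0 (by
      intro T hT hT'
      obtain ⟨a, ha, b, hb, hab⟩ := hI T hT hT'
      exact ⟨a, ha, b, hb, hBpos a b hab⟩) ⟨z, hBz⟩
    exact ⟨C, hCS, hC0, Relation.ReflTransGen.head (conj_ess A hAS i z hiz (-s) (S.neg_mem hsS)) hC⟩

theorem phase1 (S : Subring ℝ) (hS : S ≠ ⊥) : ∀ (N n : ℕ) (A : Matrix (Fin n) (Fin n) ℝ) (w : Fin n),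
    #{k : Fin n | A k w = 0} ≤ N → (∀ i j, A i j ∈ S) → (∀ i j, 0 ≤ A i j) → Irr A → 0 < A w w →
    ∃ (m : ℕ) (B : Matrix (Fin m) (Fin m) ℝ), (∀ i j, B i j ∈ S) ∧ (∀ i j, 0 ≤ B i j) ∧ Irr B ∧
      (∃ z, ∀ k, 0 < B k z) ∧ Relation.ReflTransGen (ESS S) ⟨n, A⟩ ⟨m, B⟩ := by
  intro N
  induction N with
  | zero =>
    intro n A w hN hAS hA0 hI hw
    refine ⟨n, A, hAS, hA0, hI, ⟨w, ?_⟩, Relation.ReflTransGen.refl⟩
    intro k
    rcases (hA0 k w).lt_or_eq with h | h
    · exact h
    · exfalso
      have h1 : k ∈ (Finset.univ.filter fun k : Fin n => A k w = 0) := by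
        simp [h.symm]
      have := Finset.card_pos.mpr ⟨_, h1⟩
      omega
  | succ N ih =>
    intro n A w hN hAS hA0 hI hw
    by_cases hall : ∀ k, 0 < A k w
    · exact ⟨n, A, hAS, hA0, hI, ⟨w, hall⟩, Relation.ReflTransGen.refl⟩
    push Not at hall
    obtain ⟨k1, hk1⟩ := hall
    obtain ⟨k0, hk0, j, hj, hkj⟩ := hI {k | A k w = 0} ⟨k1, le_antisymm hk1 (hA0 _ _)⟩ (by
      intro h
      have : w ∈ {k | A k w = 0} := by rw [h]; trivial
      exact hw.ne' this)
    have hk0' : A k0 w = 0 := hk0
    have hjw : 0 < A j w := lt_of_le_of_ne (hA0 _ _) (Ne.symm hj)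
    have hjne : j ≠ w := by
      rintro rfl
      exact hkj.ne' hk0'
    have hk0w : k0 ≠ w := by
      rintro rfl
      exact hw.ne' hk0'
    have hk0j : k0 ≠ j := by
      rintro rfl
      exact hjw.ne' hk0'
    obtain ⟨δ, hδS, hδ0, hδ1⟩ := Pool.Agent.Helper605.subring_between S hS 0 (A w w) hw
    obtain ⟨s, hsS, hs0, hs1⟩ := Pool.Agent.Helper605.subring_between S hS 0 (A j w / δ) (div_pos hjw hδ0)
    have hsδ : s * δ < A j w := by rwa [lt_div_iff₀ hδ0] at hs1
    set f : Fin (n + 1) → Fin n := Fin.cons w id with hf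
    set R : Matrix (Fin (n + 1)) (Fin n) ℝ := Matrix.of (Fin.cons (fun l => if l = w then δ else 0)
      (fun k l => A k l - if k = w ∧ l = w then δ else 0)) with hR
    have hR0 : ∀ l, R 0 l = if l = w then δ else 0 := fun l => rfl
    have hR1 : ∀ k l, R (Fin.succ k) l = A k l - if k = w ∧ l = w then δ else 0 := fun k l => rfl
    have hRS : ∀ i j, R i j ∈ S := by
      intro i l
      refine Fin.cases ?_ (fun k => ?_) i
      · rw [hR0]; split_ifs; exacts [hδS, S.zero_mem]
      · rw [hR1]; split_ifs; exacts [S.sub_mem (hAS _ _) hδS, S.sub_mem (hAS _ _) S.zero_mem]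
    have hsplit : ∀ v l, ∑ a with f a = v, R a l = A v l := by
      intro v l
      rw [Finset.sum_filter, Fin.sum_univ_succ]
      have h1 : ∀ k : Fin n, (if f (Fin.succ k) = v then R (Fin.succ k) l else 0) =
          if k = v then A k l - (if k = w ∧ l = w then δ else 0) else 0 := by
        intro k
        rw [hR1]
        rfl
      rw [Finset.sum_congr rfl fun k _ => h1 k, Finset.sum_ite_eq' Finset.univ v, if_pos (Finset.mem_univ v), hR0]
      change (if w = v then (if l = w then δ else 0) else 0) + _ = _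
      by_cases h2 : w = v
      · subst h2
        by_cases h3 : l = w
        · subst h3; simp
        · simp [h3]
      · have h2' : v ≠ w := fun h => h2 h.symm
        simp [h2, h2']
    set A1 : Matrix (Fin (n + 1)) (Fin (n + 1)) ℝ := Matrix.of fun a b => R a (f b) with hA1
    have hE1 : ESS S ⟨n, A⟩ ⟨n + 1, A1⟩ := split_row A f R hRS hsplit
    have hA1S : ∀ a b, A1 a b ∈ S := fun a b => hRS _ _
    set B := transvection (Fin.succ j) 0 (-s) * A1 * transvection (Fin.succ j) 0 s with hB
    have hE2 : ESS S ⟨n + 1, A1⟩ ⟨n + 1, B⟩ := conj_ess A1 hA1S (Fin.succ j) 0 (Fin.succ_ne_zero j) s hsS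
    have hBS : ∀ a b, B a b ∈ S := mul_mem' (mul_mem' (transvection_mem _ _ (S.neg_mem hsS)) hA1S)
      (transvection_mem _ _ hsS)
    have hBe : ∀ a b, B a b = A1 a b + (if b = 0 then s * A1 a (Fin.succ j) else 0) -
        (if a = Fin.succ j then s * (A1 0 b + if b = 0 then s * A1 0 (Fin.succ j) else 0) else 0) := fun a b =>
      conj_apply A1 (Fin.succ j) 0 s a b
    have e1 : ∀ k l, A1 (Fin.succ k) (Fin.succ l) = A k l - if k = w ∧ l = w then δ else 0 := fun k l => rfl
    have e2 : ∀ k, A1 (Fin.succ k) 0 = A k w - if k = w then δ else 0 := by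
      intro k
      change A k w - (if k = w ∧ w = w then δ else 0) = _
      simp
    have e3 : ∀ l, A1 0 (Fin.succ l) = if l = w then δ else 0 := fun l => rfl
    have e4 : A1 0 0 = δ := by
      change (if w = w then δ else 0) = δ
      simp
    have b1 : ∀ k l, B (Fin.succ k) (Fin.succ l) = A k l - (if k = w ∧ l = w then δ else 0) -
        (if k = j then s * (if l = w then δ else 0) else 0) := by
      intro k l
      rw [hBe, e1, e3, if_neg (Fin.succ_ne_zero l), if_neg (Fin.succ_ne_zero l)]
      simp only [Fin.succ_inj, add_zero]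
    have b2 : ∀ k, B (Fin.succ k) 0 = A k w - (if k = w then δ else 0) + s * A k j - (if k = j then s * δ else 0) := by
      intro k
      rw [hBe, e2, e1, e3, e4, if_pos rfl, if_pos rfl]
      have h1 : ¬ (k = w ∧ j = w) := fun h => hjne h.2
      simp only [Fin.succ_inj, if_neg h1, if_neg hjne, mul_zero, add_zero, sub_zero]
    have b3 : ∀ l, B 0 (Fin.succ l) = if l = w then δ else 0 := by
      intro l
      rw [hBe, e3, if_neg (Fin.succ_ne_zero l), if_neg (Fin.succ_ne_zero j).symm]
      simp
    have b4 : B 0 0 = δ := by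
      rw [hBe, e4, e3, if_pos rfl, if_neg (Fin.succ_ne_zero j).symm, if_neg hjne]
      simp
    have p1 : ∀ k l, 0 < A k l → 0 < B (Fin.succ k) (Fin.succ l) := by
      intro k l h
      rw [b1]
      by_cases hl : l = w
      · subst hl
        by_cases hk : k = l
        · subst hk
          have : k ≠ j := fun h => hjne h.symm
          simp only [and_self, if_true, if_neg this]
          linarith
        · by_cases hkj' : k = j
          · subst hkj'
            simp only [hk, false_and, if_false, if_true]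
            linarith
          · simp only [hk, false_and, if_false, if_neg hkj']
            linarith
      · simp only [hl, and_false, if_false, mul_zero, ite_self]
        linarith
    have p1' : ∀ k l, 0 ≤ B (Fin.succ k) (Fin.succ l) := by
      intro k l
      rcases (hA0 k l).lt_or_eq with h | h
      · exact (p1 k l h).le
      · rw [b1]
        by_cases hl : l = w
        · subst hl
          have hk : k ≠ l := by rintro rfl; exact hw.ne h
          have hkj' : k ≠ j := by rintro rfl; exact hjw.ne h
          simp only [hk, false_and, if_false, if_neg hkj']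
          linarith
        · simp only [hl, and_false, if_false, mul_zero, ite_self]
          linarith
    have p2 : ∀ k, 0 < A k w → 0 < B (Fin.succ k) 0 := by
      intro k h
      rw [b2]
      have h1 : 0 ≤ s * A k j := mul_nonneg hs0.le (hA0 _ _)
      by_cases hk : k = w
      · subst hk
        have : k ≠ j := fun h => hjne h.symm
        simp only [if_true, if_neg this]
        linarith
      · by_cases hkj' : k = j
        · subst hkj'
          simp only [if_true, if_neg hk]
          linarith
        · simp only [if_neg hk, if_neg hkj']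
          linarith
    have p2' : ∀ k, 0 ≤ B (Fin.succ k) 0 := by
      intro k
      rcases (hA0 k w).lt_or_eq with h | h
      · exact (p2 k h).le
      · rw [b2]
        have hk : k ≠ w := by rintro rfl; exact hw.ne h
        have hkj' : k ≠ j := by rintro rfl; exact hjw.ne h
        have h1 : 0 ≤ s * A k j := mul_nonneg hs0.le (hA0 _ _)
        simp only [if_neg hk, if_neg hkj']
        linarith
    have p3 : 0 < B (Fin.succ k0) 0 := by
      rw [b2, hk0', if_neg hk0w, if_neg hk0j]
      have := mul_pos hs0 hkj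
      linarith
    have hB0 : ∀ a b, 0 ≤ B a b := by
      intro a b
      refine Fin.cases ?_ (fun k => ?_) a <;> refine Fin.cases ?_ (fun l => ?_) b
      · rw [b4]; exact hδ0.le
      · rw [b3]; split_ifs; exacts [hδ0.le, le_refl _]
      · exact p2' k
      · exact p1' k l
    have hIB : Irr B := by
      intro T hT hT'
      by_cases h1 : {k : Fin n | Fin.succ k ∈ T}.Nonempty
      · by_cases h2 : {k : Fin n | Fin.succ k ∈ T} = Set.univ
        · have h0 : (0 : Fin (n + 1)) ∉ T := by
            intro h0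
            apply hT'
            rw [Set.eq_univ_iff_forall]
            intro a
            refine Fin.cases h0 (fun k => ?_) a
            have : k ∈ {k : Fin n | Fin.succ k ∈ T} := by rw [h2]; trivial
            exact this
          have hwT : w ∈ {k : Fin n | Fin.succ k ∈ T} := by rw [h2]; trivial
          exact ⟨Fin.succ w, hwT, 0, h0, p2 w hw⟩
        · obtain ⟨a, ha, b, hb, hab⟩ := hI _ h1 h2
          exact ⟨Fin.succ a, ha, Fin.succ b, hb, p1 a b hab⟩
      · obtain ⟨a, ha⟩ := hT
        have h0 : (0 : Fin (n + 1)) ∈ T := by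
          revert ha
          refine Fin.cases (fun h => h) (fun k hk => ?_) a
          exact absurd ⟨k, hk⟩ h1
        refine ⟨0, h0, Fin.succ w, fun hwT => h1 ⟨w, hwT⟩, ?_⟩
        rw [b3, if_pos rfl]
        exact hδ0
    obtain ⟨m, C, hCS, hC0, hIC, hC, hchain⟩ := ih (n + 1) B 0 (by
      have hsub : (Finset.univ.filter fun a : Fin (n + 1) => B a 0 = 0) ⊆
          (((Finset.univ.filter fun k : Fin n => A k w = 0).erase k0).image Fin.succ) := by
        intro a ha
        rw [Finset.mem_filter] at ha
        have ha2 := ha.2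
        revert ha2
        refine Fin.cases (fun h => ?_) (fun k h => ?_) a
        · rw [b4] at h
          exact absurd h hδ0.ne'
        · rw [Finset.mem_image]
          refine ⟨k, ?_, rfl⟩
          rw [Finset.mem_erase, Finset.mem_filter]
          refine ⟨?_, Finset.mem_univ _, ?_⟩
          · rintro rfl
            exact p3.ne' h
          · by_contra hne
            exact (p2 k (lt_of_le_of_ne (hA0 _ _) (Ne.symm hne))).ne' h
      have h1 := Finset.card_le_card hsub
      have h2 := (Finset.card_image_le (s := (Finset.univ.filter fun k : Fin n => A k w = 0).erase k0)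
        (f := Fin.succ)).trans (Finset.card_erase_of_mem (by simpa using hk0')).le
      have h3 : 0 < #(Finset.univ.filter fun k : Fin n => A k w = 0) := Finset.card_pos.mpr ⟨k0, by simpa using hk0'⟩
      omega) hBS hB0 hIB (by rw [b4]; exact hδ0)
    exact ⟨m, C, hCS, hC0, hIC, hC, Relation.ReflTransGen.head hE1 (Relation.ReflTransGen.head hE2 hchain)⟩

end Pool.Agent.Y552.SJ
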