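import Mathlib
import Pool.Agent.Y552.SJ.Imp

set_option autoImplicit false

namespace Pool.Agent.Y552.SJ

open Matrix Finset

theorem spread (S : Subring ℝ) (hS : S ≠ ⊥) {α : Type*} [DecidableEq α] (F : Finset α) (x ε : ℝ) (hx : x ∈ S)
    (hx0 : 0 ≤ x) (hε : 0 < ε) (hF : F.Nonempty) (h : x < #F * ε) :
    ∃ g : α → ℝ, (∀ a, g a ∈ S) ∧ (∀ a, 0 ≤ g a) ∧ (∀ a, g a < ε) ∧ (0 < x → ∀ a, 0 < g a) ∧
      ∑ a ∈ F, g a = x := by
  rcases hx0.lt_or_eq with hx1 | hx1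
  · obtain ⟨a0, ha0⟩ := hF
    have hc : 1 ≤ #F := Finset.card_pos.mpr ⟨a0, ha0⟩
    have hc' : (1 : ℝ) ≤ #F := by exact_mod_cast hc
    have hlt : max 0 ((x - ε) / ((#F : ℝ) - 1)) < x / #F := by
      apply max_lt
      · exact div_pos hx1 (by linarith)
      · rcases hc'.lt_or_eq with h1 | h1
        · rw [div_lt_div_iff₀ (by linarith) (by linarith)]
          nlinarith
        · rw [← h1, sub_self, div_zero, div_one]
          exact hx1
    obtain ⟨s, hsS, hs0, hs1⟩ := Pool.Agent.Helper605.subring_between S hS _ _ hlt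
    have hs0' : 0 < s := (le_max_left _ _).trans_lt hs0
    have hsx : s * #F < x := by rwa [lt_div_iff₀ (by linarith)] at hs1
    have hsε : s < ε := by
      by_contra hcon
      push Not at hcon
      nlinarith
    have ht0 : 0 < x - ((#F : ℝ) - 1) * s := by nlinarith
    have ht1 : x - ((#F : ℝ) - 1) * s < ε := by
      rcases hc'.lt_or_eq with h1 | h1
      · have h2 := (le_max_right _ _).trans_lt hs0
        rw [div_lt_iff₀ (by linarith)] at h2
        linarith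
      · rw [← h1] at h ⊢
        linarith
    refine ⟨fun a => if a = a0 then x - ((#F : ℝ) - 1) * s else s, ?_, ?_, ?_, ?_, ?_⟩
    · intro a
      dsimp only
      split_ifs
      · exact S.sub_mem hx (S.mul_mem (S.sub_mem (natCast_mem S _) S.one_mem) hsS)
      · exact hsS
    · intro a; dsimp only; split_ifs; exacts [ht0.le, hs0'.le]
    · intro a; dsimp only; split_ifs; exacts [ht1, hsε]
    · intro _ a; dsimp only; split_ifs; exacts [ht0, hs0']
    · rw [← Finset.add_sum_erase _ _ ha0, if_pos rfl]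
      rw [Finset.sum_congr rfl (g := fun _ => s) (fun a ha => if_neg (Finset.ne_of_mem_erase ha))]
      rw [Finset.sum_const, Finset.card_erase_of_mem ha0, nsmul_eq_mul, Nat.cast_sub hc]
      push_cast
      ring
  · refine ⟨fun _ => 0, fun _ => S.zero_mem, fun _ => le_refl _, fun _ => hε, fun h => absurd hx1 h.ne, ?_⟩
    simp [← hx1]

theorem fibre_card {m n K : ℕ} (hm : 0 < m) (h : m * K ≤ n) (v : Fin m) :
    K ≤ #(Finset.univ.filter fun a : Fin n => (⟨(a : ℕ) % m, Nat.mod_lt _ hm⟩ : Fin m) = v) := by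
  have hlt : ∀ i : Fin K, (i : ℕ) * m + v < n := by
    intro i
    have h1 := i.isLt
    have h2 := v.isLt
    calc (i : ℕ) * m + v < (i : ℕ) * m + m := by omega
      _ = ((i : ℕ) + 1) * m := by ring
      _ ≤ K * m := Nat.mul_le_mul_right m h1
      _ = m * K := by ring
      _ ≤ n := h
  have h1 : #(Finset.univ.image fun i : Fin K => (⟨(i : ℕ) * m + v, hlt i⟩ : Fin n)) = K := by
    rw [Finset.card_image_of_injective, Finset.card_univ, Fintype.card_fin]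
    intro i j hij
    have h2 : (i : ℕ) * m + v = (j : ℕ) * m + v := congrArg Fin.val hij
    have h3 : (i : ℕ) * m = (j : ℕ) * m := by omega
    exact Fin.ext (Nat.eq_of_mul_eq_mul_right hm h3)
  rw [← h1]
  apply Finset.card_le_card
  intro a ha
  rw [Finset.mem_image] at ha
  obtain ⟨i, _, rfl⟩ := ha
  rw [Finset.mem_filter]
  refine ⟨Finset.mem_univ _, ?_⟩
  apply Fin.ext
  change ((i : ℕ) * m + v) % m = v
  rw [Nat.mul_comm, Nat.mul_add_mod, Nat.mod_eq_of_lt v.isLt]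

theorem pow_RT {a b : ℕ} (F : Matrix (Fin b) (Fin a) ℝ) (R : Matrix (Fin a) (Fin b) ℝ) (p : ℕ) :
    (F * R) ^ (p + 1) = F * (R * F) ^ p * R := by
  induction p with
  | zero => simp
  | succ p ih =>
    rw [pow_succ, ih, pow_succ (R * F) p]
    simp only [Matrix.mul_assoc]

theorem sizes (S : Subring ℝ) (hS : S ≠ ⊥) {m : ℕ} (hm : 0 < m) (B : Matrix (Fin m) (Fin m) ℝ)
    (hBS : ∀ i j, B i j ∈ S) (hB0 : ∀ i j, 0 ≤ B i j) (hprim : ∃ p : ℕ, 0 < p ∧ ∀ i j, 0 < (B ^ p) i j)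
    (ε : ℝ) (hε : 0 < ε) :
    ∃ n₀ : ℕ, ∀ n : ℕ, n₀ ≤ n → ∃ B' : Matrix (Fin n) (Fin n) ℝ, (∀ i j, B' i j ∈ S) ∧ (∀ i j, 0 ≤ B' i j) ∧
      (∀ i j, B' i j < ε) ∧ (∃ p : ℕ, 0 < p ∧ ∀ i j, 0 < (B' ^ p) i j) ∧
      ((∀ i j, 0 < B i j) → ∀ i j, 0 < B' i j) ∧ ESS S ⟨m, B⟩ ⟨n, B'⟩ ∧
      ((∀ i, ∑ j, B i j = 1) → ∀ i, ∑ j, B' i j = 1) := by
  obtain ⟨K, hK⟩ := exists_nat_gt ((∑ i, ∑ j, B i j) / ε)
  have hK1 : 1 ≤ K ∨ K = 0 := by omega
  have hent : ∀ v l, B v l < (K : ℝ) * ε := by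
    intro v l
    have h1 : B v l ≤ ∑ i, ∑ j, B i j := by
      calc B v l ≤ ∑ j, B v j := Finset.single_le_sum (fun j _ => hB0 v j) (Finset.mem_univ l)
        _ ≤ _ := Finset.single_le_sum (f := fun i => ∑ j, B i j) (fun i _ => Finset.sum_nonneg fun j _ => hB0 i j)
          (Finset.mem_univ v)
    have h2 : (∑ i, ∑ j, B i j) < K * ε := by rwa [div_lt_iff₀ hε] at hK
    linarith
  have hKpos : 0 < K := by
    rcases Nat.eq_zero_or_pos K with h | h
    · exfalso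
      have h1 := hent ⟨0, hm⟩ ⟨0, hm⟩
      rw [h] at h1
      have h2 := hB0 ⟨0, hm⟩ ⟨0, hm⟩
      simp only [Nat.cast_zero, zero_mul] at h1
      linarith
    · exact h
  refine ⟨m * K, fun n hn => ?_⟩
  set f : Fin n → Fin m := fun a => ⟨(a : ℕ) % m, Nat.mod_lt _ hm⟩ with hf
  have hfib : ∀ l, K ≤ #(Finset.univ.filter fun a : Fin n => f a = l) := fun l => fibre_card hm hn l
  have hg : ∀ v l : Fin m, ∃ g : Fin n → ℝ, (∀ a, g a ∈ S) ∧ (∀ a, 0 ≤ g a) ∧ (∀ a, g a < ε) ∧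
      (0 < B v l → ∀ a, 0 < g a) ∧ ∑ a ∈ Finset.univ.filter (fun a : Fin n => f a = l), g a = B v l := by
    intro v l
    apply spread S hS _ _ ε (hBS v l) (hB0 v l) hε
    · exact Finset.card_pos.mp (lt_of_lt_of_le hKpos (hfib l))
    · refine (hent v l).trans_le ?_
      apply mul_le_mul_of_nonneg_right _ hε.le
      exact_mod_cast hfib l
  choose g hgS hg0 hgε hgpos hgsum using hg
  set R : Matrix (Fin m) (Fin n) ℝ := Matrix.of fun v b => g v (f b) b with hR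
  obtain ⟨hBR, hB'R, hess⟩ := split_col (S := S) B f R (fun i j => hgS _ _ _) (by
    intro v l
    rw [← hgsum v l]
    apply Finset.sum_congr rfl
    intro b hb
    rw [Finset.mem_filter] at hb
    change g v (f b) b = g v l b
    rw [hb.2])
  set F : Matrix (Fin n) (Fin m) ℝ := Matrix.of fun b l => if f b = l then (1 : ℝ) else 0 with hF
  set B' : Matrix (Fin n) (Fin n) ℝ := Matrix.of fun a b => R (f a) b with hB'
  refine ⟨B', fun i j => hgS _ _ _, fun i j => hg0 _ _ _, fun i j => hgε _ _ _, ?_, ?_, hess, ?_⟩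
  · obtain ⟨p, hp, hpp⟩ := hprim
    refine ⟨p + 1, Nat.succ_pos p, ?_⟩
    intro a b
    have h1 : B' ^ (p + 1) = F * B ^ p * R := by
      rw [hB'R, pow_RT, ← hBR]
    rw [h1, Matrix.mul_apply]
    have h2 : ∀ l, (F * B ^ p) a l = (B ^ p) (f a) l := by
      intro l
      rw [Matrix.mul_apply]
      simp [hF, Matrix.of_apply]
    simp only [h2]
    have hex : ∃ l, 0 < B l (f b) := by
      by_contra hcon
      push Not at hcon
      have h3 : ∀ l, B l (f b) = 0 := fun l => le_antisymm (hcon l) (hB0 _ _)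
      have h4 := hpp (f a) (f b)
      obtain ⟨p', rfl⟩ : ∃ p', p = p' + 1 := ⟨p - 1, by omega⟩
      rw [pow_succ, Matrix.mul_apply, Finset.sum_eq_zero] at h4
      · exact lt_irrefl _ h4
      · intro c _
        rw [h3, mul_zero]
    obtain ⟨l, hl⟩ := hex
    apply Finset.sum_pos'
    · intro c _
      exact mul_nonneg (hpp _ _).le (hg0 _ _ _)
    · exact ⟨l, Finset.mem_univ _, mul_pos (hpp _ _) (hgpos l (f b) hl b)⟩
  · intro hpos a b
    exact hgpos (f a) (f b) (hpos _ _) b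
  · intro hrow a
    have h1 : ∑ b, B' a b = ∑ l, ∑ b ∈ Finset.univ.filter (fun b : Fin n => f b = l), g (f a) l b := by
      rw [← Finset.sum_fiberwise Finset.univ f]
      apply Finset.sum_congr rfl
      intro l _
      apply Finset.sum_congr rfl
      intro b hb
      rw [Finset.mem_filter] at hb
      change g (f a) (f b) b = _
      rw [hb.2]
    rw [h1, Finset.sum_congr rfl fun l _ => hgsum (f a) l]
    exact hrow (f a)

/-- A primitive matrix over a dense subring with positive trace is strong shift equivalent to a positive one. -/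
theorem positive (S : Subring ℝ) (hS : S ≠ ⊥) {m : ℕ} (P : Matrix (Fin m) (Fin m) ℝ)
    (hPS : ∀ i j, P i j ∈ S) (hP0 : ∀ i j, 0 ≤ P i j) (hprim : ∃ p : ℕ, 0 < p ∧ ∀ i j, 0 < (P ^ p) i j)
    (htr : 0 < P.trace) :
    ∃ (q : ℕ) (B : Matrix (Fin q) (Fin q) ℝ), 0 < q ∧ (∀ i j, B i j ∈ S) ∧ (∀ i j, 0 < B i j) ∧
      Relation.ReflTransGen (ESS S) ⟨m, P⟩ ⟨q, B⟩ := by
  obtain ⟨p, hp, hpp⟩ := hprim
  have hw : ∃ w, 0 < P w w := by
    by_contra hcon
    push Not at hcon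
    have : P.trace ≤ 0 := Finset.sum_nonpos fun i _ => hcon i
    linarith
  obtain ⟨w, hw⟩ := hw
  obtain ⟨q, B, hBS, hB0, hBI, ⟨z, hz⟩, hch⟩ := phase1 S hS _ m P w le_rfl hPS hP0 (irr_of_pow P hP0 p hpp) hw
  obtain ⟨C, hCS, hC0, hch2⟩ := phase2 S hS _ B le_rfl hBS hB0 hBI ⟨z, hz⟩
  exact ⟨q, C, z.pos, hCS, hC0, hch.trans hch2⟩

theorem improve (S : Subring ℝ) (hS : S ≠ ⊥) {m : ℕ} (hm : 0 < m) (P : Matrix (Fin m) (Fin m) ℝ)
    (hPS : ∀ i j, P i j ∈ S) (hP0 : ∀ i j, 0 ≤ P i j) (hprim : ∃ p : ℕ, 0 < p ∧ ∀ i j, 0 < (P ^ p) i j)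
    (ε : ℝ) (hε : 0 < ε) :
    ∃ n₀ : ℕ, ∀ n : ℕ, n₀ ≤ n → ∃ B : Matrix (Fin n) (Fin n) ℝ, (∀ i j, B i j ∈ S) ∧ (∀ i j, 0 ≤ B i j) ∧
      (∀ i j, B i j < ε) ∧ (∃ p : ℕ, 0 < p ∧ ∀ i j, 0 < (B ^ p) i j) ∧
      (0 < P.trace → ∀ i j, 0 < B i j) ∧ Relation.ReflTransGen (ESS S) ⟨m, P⟩ ⟨n, B⟩ := by
  by_cases htr : 0 < P.trace
  · obtain ⟨q, Q, hq, hQS, hQ0, hch⟩ := positive S hS P hPS hP0 hprim htr
    obtain ⟨n₀, h⟩ := sizes S hS hq Q hQS (fun i j => (hQ0 i j).le) ⟨1, one_pos, by simpa using hQ0⟩ ε hε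
    refine ⟨n₀, fun n hn => ?_⟩
    obtain ⟨B, h1, h2, h3, h4, h5, h6, _⟩ := h n hn
    exact ⟨B, h1, h2, h3, h4, fun _ => h5 hQ0, hch.tail h6⟩
  · obtain ⟨n₀, h⟩ := sizes S hS hm P hPS hP0 hprim ε hε
    refine ⟨n₀, fun n hn => ?_⟩
    obtain ⟨B, h1, h2, h3, h4, _, h6, _⟩ := h n hn
    exact ⟨B, h1, h2, h3, h4, fun h => absurd h htr, Relation.ReflTransGen.single h6⟩

end Pool.Agent.Y552.SJ
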