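import Mathlib

set_option autoImplicit false

namespace Pool.Agent.Y552.SJ

open Matrix Polynomial

/-- Factorisation of a positive matrix with a fixed vector through a stochastic matrix. -/
def S_STO : Prop :=
  ∀ (S : Subring ℝ), S ≠ ⊥ → ∀ (q : ℕ) (M : Matrix (Fin q) (Fin q) ℝ) (v w : Fin q → ℝ),
    (∀ i j, M i j ∈ S) → (∀ i j, 0 < M i j) → (∀ i, v i ∈ S) → (∀ i, 0 < v i) → (∀ i, w i ∈ S) →
    (∀ i, ∑ j, M i j * v j = v i) → (∑ i, w i * v i = 1) →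
    ∃ (N : ℕ) (R : Matrix (Fin q) (Fin N) ℝ) (T : Matrix (Fin N) (Fin q) ℝ),
      (∀ i j, R i j ∈ S) ∧ (∀ i j, T i j ∈ S) ∧ (∀ i j, 0 < (T * R) i j) ∧ M = R * T ∧
        (∀ a, ∑ j, T a j * v j = 1)

/-- A fixed vector of a positive matrix with bounded traces of powers has constant sign. -/
def S_EVP : Prop :=
  ∀ (q : ℕ) (M : Matrix (Fin q) (Fin q) ℝ) (v : Fin q → ℝ), (∀ i j, 0 < M i j) → v ≠ 0 →
    (∀ i, ∑ j, M i j * v j = v i) → (∃ C : ℝ, ∀ m : ℕ, (M ^ m).trace ≤ C) →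
    (∀ i, 0 < v i) ∨ (∀ i, v i < 0)

/-- Companion matrices: the given characteristic polynomial, and row sums one if `p(1) = 0`. -/
def S_CMP : Prop :=
  ∀ (S : Subring ℝ) (p : Polynomial ℝ), p.Monic → (∀ i, p.coeff i ∈ S) → 0 < p.natDegree →
    ∃ X : Matrix (Fin p.natDegree) (Fin p.natDegree) ℝ, (∀ i j, X i j ∈ S) ∧ X.charpoly = p ∧
      (p.eval 1 = 0 → ∀ i, ∑ j, X i j = 1)

end Pool.Agent.Y552.SJ
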