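import Mathlib
import Pool.Agent.Helper605.TraceR
import Pool.Agent.Y552.SJ.Siz
import Pool.Agent.Y552.SJ.Stm

set_option autoImplicit false

namespace Pool.Agent.Y552.SJ

open Matrix Finset

/-- The nonzero spectrum. -/
noncomputable def nzs {n : ℕ} (A : Matrix (Fin n) (Fin n) ℝ) : Multiset ℂ :=
  (A.map (algebraMap ℝ ℂ)).charpoly.roots.filter fun z => z ≠ 0

theorem filter_X_pow (a : ℕ) (p : Polynomial ℂ) (hp : p ≠ 0) :
    (Polynomial.X ^ a * p).roots.filter (fun z => z ≠ 0) = p.roots.filter (fun z => z ≠ 0) := by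
  rw [Polynomial.roots_mul (mul_ne_zero (pow_ne_zero _ Polynomial.X_ne_zero) hp), Polynomial.roots_pow,
    Polynomial.roots_X, Multiset.filter_add]
  have h2 : ((a • ({0} : Multiset ℂ)).filter fun z => z ≠ 0) = 0 := by
    rw [Multiset.filter_eq_nil]
    intro b hb
    rw [Multiset.mem_nsmul] at hb
    simpa using hb.2
  rw [h2, zero_add]

theorem nzs_ess {S : Subring ℝ} {X Y : Σ d : ℕ, Matrix (Fin d) (Fin d) ℝ} (h : ESS S X Y) :
    nzs X.2 = nzs Y.2 := by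
  obtain ⟨R, T, _, _, hX, hY⟩ := h
  have h1 := Matrix.charpoly_mul_comm' (R.map (algebraMap ℝ ℂ)) (T.map (algebraMap ℝ ℂ))
  rw [← Matrix.map_mul, ← Matrix.map_mul, ← hX, ← hY] at h1
  unfold nzs
  rw [← filter_X_pow (Fintype.card (Fin Y.1)) _ (Matrix.charpoly_monic (X.2.map (algebraMap ℝ ℂ))).ne_zero, h1,
    filter_X_pow _ _ (Matrix.charpoly_monic _).ne_zero]

theorem nzs_chain {S : Subring ℝ} {X Y : Σ d : ℕ, Matrix (Fin d) (Fin d) ℝ}
    (h : Relation.ReflTransGen (ESS S) X Y) : nzs X.2 = nzs Y.2 := by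
  induction h with
  | refl => rfl
  | tail _ h ih => rw [ih, nzs_ess h]

theorem trace_pow_nzs {n : ℕ} (A : Matrix (Fin n) (Fin n) ℝ) (k : ℕ) (hk : 0 < k) :
    (((A ^ k).trace : ℝ) : ℂ) = ((nzs A).map fun z => z ^ k).sum := by
  have h1 := Pool.Agent.Helper605.trace_pow_roots n (A.map (algebraMap ℝ ℂ)) k
  have h2 : (A.map (algebraMap ℝ ℂ)) ^ k = (A ^ k).map (algebraMap ℝ ℂ) := by
    have := (map_pow (RingHom.mapMatrix (algebraMap ℝ ℂ)) A k).symm
    exact this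
  have h3 : (((A ^ k).trace : ℝ) : ℂ) = ((A ^ k).map (algebraMap ℝ ℂ)).trace := by
    rw [Matrix.trace, Matrix.trace]
    push_cast
    rfl
  rw [h3, ← h2, h1]
  unfold nzs
  set L := (A.map (algebraMap ℝ ℂ)).charpoly.roots
  conv_lhs => rw [← Multiset.filter_add_not (fun z : ℂ => z ≠ 0) L, Multiset.map_add, Multiset.sum_add]
  rw [add_eq_left]
  apply Multiset.sum_eq_zero
  intro x hx
  rw [Multiset.mem_map] at hx
  obtain ⟨y, hy, rfl⟩ := hx
  rw [Multiset.mem_filter] at hy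
  have hy0 : y = 0 := by simpa using hy.2
  rw [hy0, zero_pow hk.ne']

theorem trace_nzs {n : ℕ} (A : Matrix (Fin n) (Fin n) ℝ) : ((A.trace : ℝ) : ℂ) = (nzs A).sum := by
  have := trace_pow_nzs A 1 one_pos
  simpa using this

/-- A fixed vector over `S` whose entries generate the unit ideal. -/
def Fix (S : Subring ℝ) (X : Σ d : ℕ, Matrix (Fin d) (Fin d) ℝ) : Prop :=
  ∃ v w : Fin X.1 → ℝ, (∀ i, v i ∈ S) ∧ (∀ i, w i ∈ S) ∧ X.2 *ᵥ v = v ∧ w ⬝ᵥ v = 1

theorem fix_ess {S : Subring ℝ} {X Y : Σ d : ℕ, Matrix (Fin d) (Fin d) ℝ} (h : ESS S X Y) (hX : Fix S X) :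
    Fix S Y := by
  obtain ⟨R, T, hR, hT, h1, h2⟩ := h
  obtain ⟨v, w, hv, hw, hf, hu⟩ := hX
  refine ⟨T *ᵥ v, w ᵥ* R, ?_, ?_, ?_, ?_⟩
  · intro i
    change ∑ j, T i j * v j ∈ S
    exact S.sum_mem fun j _ => S.mul_mem (hT i j) (hv j)
  · intro i
    change ∑ j, w j * R j i ∈ S
    exact S.sum_mem fun j _ => S.mul_mem (hw j) (hR j i)
  · rw [h2, Matrix.mulVec_mulVec, Matrix.mul_assoc, ← h1, ← Matrix.mulVec_mulVec, hf]
  · rw [← Matrix.dotProduct_mulVec, Matrix.mulVec_mulVec, ← h1, hf, hu]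

theorem ess_symm {S : Subring ℝ} {X Y : Σ d : ℕ, Matrix (Fin d) (Fin d) ℝ} (h : ESS S X Y) : ESS S Y X := by
  obtain ⟨R, T, hR, hT, h1, h2⟩ := h
  exact ⟨T, R, hT, hR, h2, h1⟩

theorem chain_symm {S : Subring ℝ} {X Y : Σ d : ℕ, Matrix (Fin d) (Fin d) ℝ}
    (h : Relation.ReflTransGen (ESS S) X Y) : Relation.ReflTransGen (ESS S) Y X := by
  induction h with
  | refl => exact Relation.ReflTransGen.refl
  | tail _ h ih => exact Relation.ReflTransGen.head (ess_symm h) ih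

theorem fix_chain {S : Subring ℝ} {X Y : Σ d : ℕ, Matrix (Fin d) (Fin d) ℝ}
    (h : Relation.ReflTransGen (ESS S) X Y) (hX : Fix S X) : Fix S Y := by
  induction h with
  | refl => exact hX
  | tail _ h ih => exact fix_ess h ih

theorem trace_bound {n : ℕ} (A : Matrix (Fin n) (Fin n) ℝ) (h : ∀ z ∈ nzs A, ‖z‖ ≤ 1) :
    ∃ C : ℝ, ∀ m : ℕ, (A ^ m).trace ≤ C := by
  refine ⟨Multiset.card (nzs A) + n, fun m => ?_⟩
  rcases Nat.eq_zero_or_pos m with rfl | hm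
  · rw [pow_zero, Matrix.trace_one, Fintype.card_fin]
    have : (0 : ℝ) ≤ (Multiset.card (nzs A) : ℝ) := Nat.cast_nonneg _
    linarith
  · have h1 := trace_pow_nzs A m hm
    have h2 : ‖((nzs A).map fun z => z ^ m).sum‖ ≤ Multiset.card (nzs A) := by
      refine (norm_multiset_sum_le _).trans ?_
      rw [Multiset.map_map]
      have : (((nzs A).map (norm ∘ fun z => z ^ m)).sum : ℝ) ≤ Multiset.card ((nzs A).map (norm ∘ fun z : ℂ => z ^ m)) • (1 : ℝ) := by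
        apply Multiset.sum_le_card_nsmul
        intro x hx
        rw [Multiset.mem_map] at hx
        obtain ⟨y, hy, rfl⟩ := hx
        simp only [Function.comp, norm_pow]
        exact pow_le_one₀ (norm_nonneg _) (h y hy)
      simpa using this
    rw [← h1, Complex.norm_real, Real.norm_eq_abs] at h2
    have h3 := le_abs_self (A ^ m).trace
    have h4 : (0 : ℝ) ≤ n := Nat.cast_nonneg _
    linarith

theorem stoch (hSTO : S_STO) (hEVP : S_EVP) (S : Subring ℝ) (hS : S ≠ ⊥) {m : ℕ}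
    (P : Matrix (Fin m) (Fin m) ℝ) (hPS : ∀ i j, P i j ∈ S) (hP0 : ∀ i j, 0 ≤ P i j)
    (hprim : ∃ p : ℕ, 0 < p ∧ ∀ i j, 0 < (P ^ p) i j) (htr : 0 < P.trace)
    (hnz : ∀ z ∈ nzs P, ‖z‖ ≤ 1) (hfix : Fix S ⟨m, P⟩) :
    ∃ (N : ℕ) (B : Matrix (Fin N) (Fin N) ℝ), 0 < N ∧ (∀ i j, B i j ∈ S) ∧ (∀ i j, 0 < B i j) ∧
      (∀ i, ∑ j, B i j = 1) ∧ Relation.ReflTransGen (ESS S) ⟨m, P⟩ ⟨N, B⟩ := by
  obtain ⟨q, Q, hq, hQS, hQ0, hch⟩ := positive S hS P hPS hP0 hprim htr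
  have hnzQ : ∀ z ∈ nzs Q, ‖z‖ ≤ 1 := by
    have h1 : nzs P = nzs Q := nzs_chain hch
    rw [← h1]
    exact hnz
  obtain ⟨v0, w0, hv0, hw0, hf0, hu0⟩ := fix_chain hch hfix
  have hf0' : ∀ i, ∑ j, Q i j * v0 j = v0 i := fun i => congrFun hf0 i
  have hv0ne : v0 ≠ 0 := by
    rintro rfl
    rw [dotProduct_zero] at hu0
    exact zero_ne_one hu0
  have key : ∃ v w : Fin q → ℝ, (∀ i, v i ∈ S) ∧ (∀ i, w i ∈ S) ∧ (∀ i, ∑ j, Q i j * v j = v i) ∧
      (∑ i, w i * v i = 1) ∧ ∀ i, 0 < v i := by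
    rcases hEVP q Q v0 hQ0 hv0ne hf0' (trace_bound Q hnzQ) with h | h
    · exact ⟨v0, w0, hv0, hw0, hf0', hu0, h⟩
    · refine ⟨fun i => -v0 i, fun i => -w0 i, fun i => S.neg_mem (hv0 i), fun i => S.neg_mem (hw0 i), ?_, ?_, ?_⟩
      · intro i
        simp only [mul_neg, Finset.sum_neg_distrib, hf0' i]
      · simp only [neg_mul_neg]
        exact hu0
      · intro i
        have := h i
        linarith
  obtain ⟨v, w, hv, hw, hf, hu, hvpos⟩ := key
  obtain ⟨N, R, T, hR, hT, hTR, hQRT, hTv⟩ := hSTO S hS q Q v w hQS hQ0 hv hvpos hw hf hu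
  have hN : 0 < N := by
    rcases Nat.eq_zero_or_pos N with h | h
    · exfalso
      subst h
      have h1 := hQ0 ⟨0, hq⟩ ⟨0, hq⟩
      rw [hQRT, Matrix.mul_apply] at h1
      simp at h1
    · exact h
  have hR1 : ∀ i, ∑ a, R i a = v i := by
    intro i
    calc ∑ a, R i a = ∑ a, R i a * ∑ j, T a j * v j := by simp only [hTv, mul_one]
      _ = ∑ a, ∑ j, R i a * T a j * v j := by simp only [Finset.mul_sum, mul_assoc]
      _ = ∑ j, ∑ a, R i a * T a j * v j := Finset.sum_comm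
      _ = ∑ j, Q i j * v j := by
        apply Finset.sum_congr rfl
        intro j _
        rw [hQRT, Matrix.mul_apply, Finset.sum_mul]
      _ = v i := hf i
  refine ⟨N, T * R, hN, mul_mem' hT hR, hTR, ?_, hch.tail ⟨R, T, hR, hT, hQRT, rfl⟩⟩
  intro a
  calc ∑ b, (T * R) a b = ∑ b, ∑ i, T a i * R i b := by simp only [Matrix.mul_apply]
    _ = ∑ i, ∑ b, T a i * R i b := Finset.sum_comm
    _ = ∑ i, T a i * v i := by
      apply Finset.sum_congr rfl
      intro i _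
      rw [← Finset.mul_sum, hR1]
    _ = 1 := hTv a

end Pool.Agent.Y552.SJ
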