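import Mathlib
import Pool.Agent.Helper605.MainD
import Pool.Agent.Y552.SJ.Spec
import Pool.Agent.Y888.SJ.Evp
import Pool.Agent.Y38.SJ.Cmp
import Pool.Agent.Y930.SJ.Sto

set_option autoImplicit false

namespace Pool.Agent.Y552.SJ

open Matrix Finset

theorem gsc (S : Subring ℝ) (hS : S ≠ ⊥) (n : ℕ) (A : Matrix (Fin n) (Fin n) ℝ) (hA : ∀ i j, A i j ∈ S)
    (r : ℝ) (hr : 0 < r) (hcount : (A.map (algebraMap ℝ ℂ)).charpoly.roots.count (r : ℂ) = 1)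
    (hPerron : ∀ z ∈ (A.map (algebraMap ℝ ℂ)).charpoly.roots, z ≠ (r : ℂ) → ‖z‖ < r)
    (hdense : ∀ m : ℕ, 0 < m → 0 ≤ (A ^ m).trace ∧ ∀ k : ℕ, 0 < k → 0 < (A ^ m).trace → 0 < (A ^ (m * k)).trace) :
    ∃ (p : ℕ) (B : Matrix (Fin p) (Fin p) ℝ),
        0 < p ∧ (∀ i j, B i j ∈ S) ∧ (∀ i j, 0 ≤ B i j) ∧
        (∃ k : ℕ, 0 < k ∧ ∀ i j, 0 < (B ^ k) i j) ∧
        Relation.ReflTransGen (ESS S) ⟨n, A⟩ ⟨p, B⟩ := by
  set Λ := (A.map (algebraMap ℝ ℂ)).charpoly.roots with hΛdef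
  have hrΛ : (r : ℂ) ∈ Λ := Multiset.count_pos.mp (by omega)
  set s := Λ.erase (r : ℂ) with hs
  have hΛ : Λ = (r : ℂ) ::ₘ s := (Multiset.cons_erase hrΛ).symm
  have hsr : ∀ z ∈ s, ‖z‖ < r := by
    intro z hz
    apply hPerron z (Multiset.mem_of_mem_erase hz)
    rintro rfl
    have h1 := Multiset.count_pos.mpr hz
    rw [hs, Multiset.count_erase_self] at h1
    omega
  rcases n with _ | n
  · exfalso
    have h1 : (A.map (algebraMap ℝ ℂ)).charpoly = 1 := by simp [Matrix.charpoly]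
    rw [hΛdef, h1, Polynomial.roots_one] at hrΛ
    exact Multiset.notMem_zero _ hrΛ
  · exact Pool.Agent.Helper605.main_case S n A hA r hr (fun h => absurd h hS) s hΛ hsr
      (fun h => absurd h hS) (fun _ => hdense)

theorem trace_chain {S : Subring ℝ} {X Y : Σ d : ℕ, Matrix (Fin d) (Fin d) ℝ}
    (h : Relation.ReflTransGen (ESS S) X Y) : X.2.trace = Y.2.trace := by
  have h1 := trace_nzs X.2
  have h2 := trace_nzs Y.2
  rw [nzs_chain h, ← h2] at h1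
  exact_mod_cast h1

theorem nzs_chain' {S : Subring ℝ} {d n : ℕ} {A : Matrix (Fin d) (Fin d) ℝ} {B : Matrix (Fin n) (Fin n) ℝ}
    (h : Relation.ReflTransGen (ESS S) ⟨d, A⟩ ⟨n, B⟩) : nzs A = nzs B :=
  nzs_chain (X := ⟨d, A⟩) (Y := ⟨n, B⟩) h

/-- The matrix version, first part. -/
theorem matPrim (S : Subring ℝ) (hS : S ≠ ⊥) (n : ℕ) (A : Matrix (Fin n) (Fin n) ℝ) (hA : ∀ i j, A i j ∈ S)
    (r : ℝ) (hr : 0 < r) (hcount : (A.map (algebraMap ℝ ℂ)).charpoly.roots.count (r : ℂ) = 1)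
    (hPerron : ∀ z ∈ (A.map (algebraMap ℝ ℂ)).charpoly.roots, z ≠ (r : ℂ) → ‖z‖ < r)
    (hdense : ∀ m : ℕ, 0 < m → 0 ≤ (A ^ m).trace ∧ ∀ k : ℕ, 0 < k → 0 < (A ^ m).trace → 0 < (A ^ (m * k)).trace)
    (ε : ℝ) (hε : 0 < ε) :
    ∃ n₀ : ℕ, ∀ N : ℕ, n₀ ≤ N → ∃ B : Matrix (Fin N) (Fin N) ℝ, (∀ i j, B i j ∈ S) ∧ (∀ i j, 0 ≤ B i j) ∧
      (∀ i j, B i j < ε) ∧ (∃ p : ℕ, 0 < p ∧ ∀ i j, 0 < (B ^ p) i j) ∧
      (0 < A.trace → ∀ i j, 0 < B i j) ∧ Relation.ReflTransGen (ESS S) ⟨n, A⟩ ⟨N, B⟩ := by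
  obtain ⟨m, P, hm, hPS, hP0, hprim, hch⟩ := gsc S hS n A hA r hr hcount hPerron hdense
  obtain ⟨n₀, h⟩ := improve S hS hm P hPS hP0 hprim ε hε
  refine ⟨n₀, fun N hN => ?_⟩
  obtain ⟨B, h1, h2, h3, h4, h5, h6⟩ := h N hN
  refine ⟨B, h1, h2, h3, h4, ?_, hch.trans h6⟩
  intro htr
  apply h5
  have : A.trace = P.trace := trace_chain hch
  rw [← this]
  exact htr

/-- The matrix version, second part: stochastic matrices. -/
theorem matStoch (S : Subring ℝ) (hS : S ≠ ⊥) (n : ℕ) (A : Matrix (Fin n) (Fin n) ℝ) (hA : ∀ i j, A i j ∈ S)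
    (hcount : (A.map (algebraMap ℝ ℂ)).charpoly.roots.count (1 : ℂ) = 1)
    (hPerron : ∀ z ∈ (A.map (algebraMap ℝ ℂ)).charpoly.roots, z ≠ (1 : ℂ) → ‖z‖ < 1)
    (hdense : ∀ m : ℕ, 0 < m → 0 ≤ (A ^ m).trace ∧ ∀ k : ℕ, 0 < k → 0 < (A ^ m).trace → 0 < (A ^ (m * k)).trace)
    (htr : 0 < A.trace) (hfix : Fix S ⟨n, A⟩) (ε : ℝ) (hε : 0 < ε) :
    ∃ n₀ : ℕ, ∀ N : ℕ, n₀ ≤ N → ∃ B : Matrix (Fin N) (Fin N) ℝ, (∀ i j, B i j ∈ S) ∧ (∀ i j, 0 < B i j) ∧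
      (∀ i j, B i j < ε) ∧ (∀ i, ∑ j, B i j = 1) ∧ Relation.ReflTransGen (ESS S) ⟨n, A⟩ ⟨N, B⟩ := by
  obtain ⟨m, P, hm, hPS, hP0, hprim, hch⟩ := gsc S hS n A hA 1 one_pos (by simpa using hcount)
    (by simpa using hPerron) hdense
  have htrP : 0 < P.trace := by
    have : A.trace = P.trace := trace_chain hch
    rw [← this]
    exact htr
  have hnz : ∀ z ∈ nzs P, ‖z‖ ≤ 1 := by
    have h1 : nzs A = nzs P := nzs_chain hch
    rw [← h1]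
    intro z hz
    have hz' := (Multiset.mem_filter.mp hz).1
    by_cases h : z = 1
    · rw [h, norm_one]
    · exact (hPerron z hz' h).le
  obtain ⟨q, Q, hq, hQS, hQ0, hQ1, hch2⟩ := stoch Pool.Agent.Y930.SJ.Sto.main Pool.Agent.Y888.SJ.Evp.main S hS P hPS hP0
    hprim htrP hnz (fix_chain hch hfix)
  obtain ⟨n₀, h⟩ := sizes S hS hq Q hQS (fun i j => (hQ0 i j).le) ⟨1, one_pos, by simpa using hQ0⟩ ε hε
  refine ⟨n₀, fun N hN => ?_⟩
  obtain ⟨B, h1, h2, h3, h4, h5, h6, h7⟩ := h N hN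
  exact ⟨B, h1, h5 hQ0, h3, h7 hQ1, (hch.trans hch2).tail h6⟩

/-- Companion matrix of a list. -/
theorem listMat (S : Subring ℝ) (Λ : Multiset ℂ) (hΛ0 : ∀ z ∈ Λ, z ≠ 0) (hne : Λ ≠ 0)
    (hCo : ∃ p : Polynomial ℝ, (∀ i, p.coeff i ∈ S) ∧
        p.map (algebraMap ℝ ℂ) = (Λ.map fun z => Polynomial.X - Polynomial.C z).prod) :
    ∃ (n : ℕ) (A : Matrix (Fin n) (Fin n) ℝ), (∀ i j, A i j ∈ S) ∧
      (A.map (algebraMap ℝ ℂ)).charpoly.roots = Λ ∧ nzs A = Λ ∧ ((1 : ℂ) ∈ Λ → Fix S ⟨n, A⟩) := by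
  obtain ⟨p, hpS, hp⟩ := hCo
  have hmon : p.Monic := by
    have h1 : (p.map (algebraMap ℝ ℂ)).Monic := by
      rw [hp]
      exact Polynomial.monic_multisetProd_X_sub_C Λ
    exact Polynomial.monic_of_injective (algebraMap ℝ ℂ).injective h1
  have hdeg : p.natDegree = Multiset.card Λ := by
    have h1 : (p.map (algebraMap ℝ ℂ)).natDegree = Multiset.card Λ := by
      rw [hp, Polynomial.natDegree_multiset_prod_X_sub_C_eq_card]
    rw [← h1, Polynomial.natDegree_map]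
  have hdeg0 : 0 < p.natDegree := by
    rw [hdeg]
    exact Multiset.card_pos.mpr hne
  obtain ⟨A, hAS, hchar, hrow⟩ := Pool.Agent.Y38.SJ.Cmp.main S p hmon hpS hdeg0
  have hroots : (A.map (algebraMap ℝ ℂ)).charpoly.roots = Λ := by
    rw [Matrix.charpoly_map, hchar, hp, Polynomial.roots_multiset_prod_X_sub_C]
  refine ⟨p.natDegree, A, hAS, hroots, ?_, ?_⟩
  · unfold nzs
    rw [hroots]
    exact Multiset.filter_eq_self.mpr hΛ0
  · intro h1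
    have hev : p.eval 1 = 0 := by
      have h2 : (p.map (algebraMap ℝ ℂ)).eval 1 = 0 := by
        rw [hp, Polynomial.eval_multiset_prod]
        apply Multiset.prod_eq_zero
        rw [Multiset.map_map, Multiset.mem_map]
        exact ⟨1, h1, by simp⟩
      have h3 : (p.map (algebraMap ℝ ℂ)).eval (algebraMap ℝ ℂ 1) = algebraMap ℝ ℂ (p.eval 1) :=
        Polynomial.eval_map_apply (algebraMap ℝ ℂ) 1
      rw [map_one, h2] at h3
      exact (algebraMap ℝ ℂ).injective (by rw [← h3, map_zero])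
    have hr := hrow hev
    refine ⟨fun _ => 1, fun i => if i = (⟨0, hdeg0⟩ : Fin p.natDegree) then 1 else 0, fun _ => S.one_mem, ?_, ?_, ?_⟩
    · intro i
      dsimp only
      split_ifs
      exacts [S.one_mem, S.zero_mem]
    · funext i
      change ∑ j, A i j * 1 = 1
      simpa using hr i
    · change ∑ i : Fin p.natDegree, (if i = (⟨0, hdeg0⟩ : Fin p.natDegree) then (1 : ℝ) else 0) * 1 = 1
      simp

end Pool.Agent.Y552.SJ
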