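import Mathlib

set_option autoImplicit false

namespace Pool.Agent.Y552.SJ

open Matrix Finset

/-- Factorisation of a nonnegative matrix through a stochastic one, respecting the supports. -/
def S_STO2 : Prop :=
  ∀ (S : Subring ℝ), S ≠ ⊥ → ∀ (q : ℕ) (M : Matrix (Fin q) (Fin q) ℝ) (v : Fin q → ℝ),
    (∀ i j, M i j ∈ S) → (∀ i j, 0 ≤ M i j) → (∀ i, v i ∈ S) → (∀ i, 0 < v i) →
    (∀ i, ∑ j, M i j * v j = v i) →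
    (∀ k, ∃ w : Fin q → ℝ, (∀ j, w j ∈ S) ∧ (∀ j, M k j = 0 → w j = 0) ∧ ∑ j, w j * v j = 1) →
    ∃ (N : ℕ) (R : Matrix (Fin q) (Fin N) ℝ) (T : Matrix (Fin N) (Fin q) ℝ),
      (∀ i j, R i j ∈ S) ∧ (∀ i j, T i j ∈ S) ∧ (∀ i j, 0 ≤ R i j) ∧ (∀ i j, 0 ≤ T i j) ∧
        (∀ b, ∃ k, 0 < R k b) ∧ M = R * T ∧ (∀ a, ∑ j, T a j * v j = 1)

/-- Thickening: the supports of the `(n+1)`-st power become the supports of the `n`-th power. -/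
def S_THK : Prop :=
  ∀ (S : Subring ℝ), S ≠ ⊥ → ∀ (q n : ℕ) (M : Matrix (Fin q) (Fin q) ℝ) (v : Fin q → ℝ),
    (∀ i j, M i j ∈ S) → (∀ i j, 0 ≤ M i j) → (∀ i, v i ∈ S) → (∀ i, 0 < v i) →
    (∀ i, ∑ j, M i j * v j = v i) → (∃ p : ℕ, 0 < p ∧ ∀ i j, 0 < (M ^ p) i j) → 0 < n →
    (∀ k, ∃ w : Fin q → ℝ, (∀ j, w j ∈ S) ∧ (∀ j, (M ^ (n + 1)) k j = 0 → w j = 0) ∧ ∑ j, w j * v j = 1) →
    ∃ (N : ℕ) (R : Matrix (Fin q) (Fin N) ℝ) (T : Matrix (Fin N) (Fin q) ℝ),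
      (∀ i j, R i j ∈ S) ∧ (∀ i j, T i j ∈ S) ∧ (∀ i j, 0 ≤ R i j) ∧ (∀ i j, 0 ≤ T i j) ∧
        (∃ p : ℕ, 0 < p ∧ ∀ i j, 0 < ((T * R) ^ p) i j) ∧ M = R * T ∧ (∀ a, 0 < ∑ j, T a j * v j) ∧
        (∀ a, ∃ w : Fin N → ℝ, (∀ b, w b ∈ S) ∧ (∀ b, ((T * R) ^ n) a b = 0 → w b = 0) ∧
          ∑ b, w b * (∑ j, T b j * v j) = 1)

end Pool.Agent.Y552.SJ
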