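import Mathlib
import Pool.Agent.Y552.SJ.Mat
import Pool.Agent.Y552.SJ.Stm2

set_option autoImplicit false

namespace Pool.Agent.Y552.SJ

open Matrix Finset

theorem mul_nonneg' {a b c : Type*} [Fintype b] {M : Matrix a b ℝ} {N : Matrix b c ℝ}
    (hM : ∀ i j, 0 ≤ M i j) (hN : ∀ i j, 0 ≤ N i j) (i : a) (j : c) : 0 ≤ (M * N) i j := by
  rw [Matrix.mul_apply]
  exact Finset.sum_nonneg fun k _ => mul_nonneg (hM i k) (hN k j)

theorem pow_mulVec_fixed {q : ℕ} (M : Matrix (Fin q) (Fin q) ℝ) (v : Fin q → ℝ) (h : M *ᵥ v = v) (p : ℕ) :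
    (M ^ p) *ᵥ v = v := by
  induction p with
  | zero => simp
  | succ p ih => rw [pow_succ, ← Matrix.mulVec_mulVec, h, ih]

theorem evp_prim (hEVP : S_EVP) {q : ℕ} (M : Matrix (Fin q) (Fin q) ℝ)
    (hprim : ∃ p : ℕ, 0 < p ∧ ∀ i j, 0 < (M ^ p) i j) (v : Fin q → ℝ) (hv : v ≠ 0) (hf : M *ᵥ v = v)
    (htr : ∃ C : ℝ, ∀ m : ℕ, (M ^ m).trace ≤ C) : (∀ i, 0 < v i) ∨ (∀ i, v i < 0) := by
  obtain ⟨p, hp, hpp⟩ := hprim
  obtain ⟨C, hC⟩ := htr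
  refine hEVP q (M ^ p) v hpp hv (fun i => congrFun (pow_mulVec_fixed M v hf p) i) ⟨C, fun m => ?_⟩
  rw [← pow_mul]
  exact hC _

theorem thick (hTHK : S_THK) (S : Subring ℝ) (hS : S ≠ ⊥) : ∀ (n q : ℕ) (M : Matrix (Fin q) (Fin q) ℝ) (v : Fin q → ℝ),
    (∀ i j, M i j ∈ S) → (∀ i j, 0 ≤ M i j) → (∀ i, v i ∈ S) → (∀ i, 0 < v i) →
    (∀ i, ∑ j, M i j * v j = v i) → (∃ p : ℕ, 0 < p ∧ ∀ i j, 0 < (M ^ p) i j) →
    (∀ k, ∃ w : Fin q → ℝ, (∀ j, w j ∈ S) ∧ (∀ j, (M ^ (n + 1)) k j = 0 → w j = 0) ∧ ∑ j, w j * v j = 1) →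
    ∃ (q' : ℕ) (M' : Matrix (Fin q') (Fin q') ℝ) (v' : Fin q' → ℝ),
    (∀ i j, M' i j ∈ S) ∧ (∀ i j, 0 ≤ M' i j) ∧ (∀ i, v' i ∈ S) ∧ (∀ i, 0 < v' i) ∧
    (∀ i, ∑ j, M' i j * v' j = v' i) ∧ (∃ p : ℕ, 0 < p ∧ ∀ i j, 0 < (M' ^ p) i j) ∧
    (∀ k, ∃ w : Fin q' → ℝ, (∀ j, w j ∈ S) ∧ (∀ j, M' k j = 0 → w j = 0) ∧ ∑ j, w j * v' j = 1) ∧
    Relation.ReflTransGen (ESS S) ⟨q, M⟩ ⟨q', M'⟩ := by
  intro n
  induction n with
  | zero =>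
    intro q M v h1 h2 h3 h4 h5 h6 h7
    refine ⟨q, M, v, h1, h2, h3, h4, h5, h6, ?_, Relation.ReflTransGen.refl⟩
    simpa using h7
  | succ n ih =>
    intro q M v h1 h2 h3 h4 h5 h6 h7
    obtain ⟨N, R, T, hR, hT, hR0, hT0, hprim, hM, hTv, hw⟩ := hTHK S hS q (n + 1) M v h1 h2 h3 h4 h5 h6 (Nat.succ_pos n) h7
    have hfix : ∀ a, ∑ b, (T * R) a b * (∑ j, T b j * v j) = ∑ j, T a j * v j := by
      have h8 : M *ᵥ v = v := funext h5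
      have h9 : (T * R) *ᵥ (T *ᵥ v) = T *ᵥ v := by
        rw [Matrix.mulVec_mulVec, Matrix.mul_assoc, ← hM, ← Matrix.mulVec_mulVec, h8]
      exact fun a => congrFun h9 a
    obtain ⟨q', M', v', g1, g2, g3, g4, g5, g6, g7, g8⟩ := ih N (T * R) (fun b => ∑ j, T b j * v j) (mul_mem' hT hR)
      (mul_nonneg' hT0 hR0)
      (fun b => S.sum_mem fun j _ => S.mul_mem (hT b j) (h3 j)) hTv hfix hprim hw
    exact ⟨q', M', v', g1, g2, g3, g4, g5, g6, g7, Relation.ReflTransGen.head ⟨R, T, hR, hT, hM, rfl⟩ g8⟩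

theorem stoch0 (hSTO2 : S_STO2) (hTHK : S_THK) (hEVP : S_EVP) (S : Subring ℝ) (hS : S ≠ ⊥) {m : ℕ}
    (P : Matrix (Fin m) (Fin m) ℝ) (hPS : ∀ i j, P i j ∈ S) (hP0 : ∀ i j, 0 ≤ P i j)
    (hprim : ∃ p : ℕ, 0 < p ∧ ∀ i j, 0 < (P ^ p) i j)
    (hnz : ∀ z ∈ nzs P, ‖z‖ ≤ 1) (hfix : Fix S ⟨m, P⟩) :
    ∃ (N : ℕ) (B : Matrix (Fin N) (Fin N) ℝ), (∀ i j, B i j ∈ S) ∧ (∀ i j, 0 ≤ B i j) ∧
      (∃ p : ℕ, 0 < p ∧ ∀ i j, 0 < (B ^ p) i j) ∧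
      (∀ i, ∑ j, B i j = 1) ∧ Relation.ReflTransGen (ESS S) ⟨m, P⟩ ⟨N, B⟩ := by
  obtain ⟨v0, w0, hv0, hw0, hf0, hu0⟩ := hfix
  have hf0' : ∀ i, ∑ j, P i j * v0 j = v0 i := fun i => congrFun hf0 i
  have hv0ne : v0 ≠ 0 := by
    rintro rfl
    rw [dotProduct_zero] at hu0
    exact zero_ne_one hu0
  have key : ∃ v w : Fin m → ℝ, (∀ i, v i ∈ S) ∧ (∀ i, w i ∈ S) ∧ (∀ i, ∑ j, P i j * v j = v i) ∧
      (∑ i, w i * v i = 1) ∧ ∀ i, 0 < v i := by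
    rcases evp_prim hEVP P hprim v0 hv0ne hf0 (trace_bound P hnz) with h | h
    · exact ⟨v0, w0, hv0, hw0, hf0', hu0, h⟩
    · refine ⟨fun i => -v0 i, fun i => -w0 i, fun i => S.neg_mem (hv0 i), fun i => S.neg_mem (hw0 i), ?_, ?_, ?_⟩
      · intro i
        simp only [mul_neg, Finset.sum_neg_distrib, hf0' i]
      · simp only [neg_mul_neg]
        exact hu0
      · intro i
        have := h i
        linarith
  obtain ⟨v, w, hv, hw, hf, hu, hvpos⟩ := key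
  obtain ⟨p, hp, hpp⟩ := hprim
  obtain ⟨p', rfl⟩ : ∃ p', p = p' + 1 := ⟨p - 1, by omega⟩
  obtain ⟨q, M, v', h1, h2, h3, h4, h5, h6, h7, hch⟩ := thick hTHK S hS p' m P v hPS hP0 hv hvpos hf ⟨p' + 1, hp, hpp⟩
    (fun k => ⟨w, hw, fun j hj => absurd hj (hpp k j).ne', hu⟩)
  obtain ⟨N, R, T, hR, hT, hR0, hT0, hRc, hMRT, hTv⟩ := hSTO2 S hS q M v' h1 h2 h3 h4 h5 h7
  have hR1 : ∀ i, ∑ a, R i a = v' i := by
    intro i
    calc ∑ a, R i a = ∑ a, R i a * ∑ j, T a j * v' j := by simp only [hTv, mul_one]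
      _ = ∑ a, ∑ j, R i a * T a j * v' j := by simp only [Finset.mul_sum, mul_assoc]
      _ = ∑ j, ∑ a, R i a * T a j * v' j := Finset.sum_comm
      _ = ∑ j, M i j * v' j := by
        apply Finset.sum_congr rfl
        intro j _
        rw [hMRT, Matrix.mul_apply, Finset.sum_mul]
      _ = v' i := h5 i
  refine ⟨N, T * R, mul_mem' hT hR, mul_nonneg' hT0 hR0, ?_, ?_,
    hch.tail ⟨R, T, hR, hT, hMRT, rfl⟩⟩
  · obtain ⟨r, hr, hrr⟩ := h6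
    refine ⟨r + 1, Nat.succ_pos r, ?_⟩
    intro a b
    rw [pow_RT, ← hMRT, Matrix.mul_apply]
    have hrow : ∃ i, 0 < T a i := by
      by_contra hcon
      push Not at hcon
      have h8 : ∑ j, T a j * v' j = 0 := Finset.sum_eq_zero fun j _ => by
        rw [le_antisymm (hcon j) (hT0 a j), zero_mul]
      rw [hTv] at h8
      exact one_ne_zero h8
    obtain ⟨i, hi⟩ := hrow
    obtain ⟨k, hk⟩ := hRc b
    have h9 : ∀ l, 0 < (T * M ^ r) a l := by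
      intro l
      rw [Matrix.mul_apply]
      exact Finset.sum_pos' (fun c _ => mul_nonneg (hT0 a c) (hrr c l).le) ⟨i, Finset.mem_univ _, mul_pos hi (hrr i l)⟩
    exact Finset.sum_pos' (fun c _ => mul_nonneg (h9 c).le (hR0 c b)) ⟨k, Finset.mem_univ _, mul_pos (h9 k) hk⟩
  · intro a
    calc ∑ b, (T * R) a b = ∑ b, ∑ i, T a i * R i b := by simp only [Matrix.mul_apply]
      _ = ∑ i, ∑ b, T a i * R i b := Finset.sum_comm
      _ = ∑ i, T a i * v' i := by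
        apply Finset.sum_congr rfl
        intro i _
        rw [← Finset.mul_sum, hR1]
      _ = 1 := hTv a

theorem pos_of_nzs {n : ℕ} {A : Matrix (Fin n) (Fin n) ℝ} (h : nzs A ≠ 0) : 0 < n := by
  rcases Nat.eq_zero_or_pos n with h0 | h0
  · exfalso
    subst h0
    apply h
    have h3 : (A.map (algebraMap ℝ ℂ)).charpoly = 1 := by simp [Matrix.charpoly]
    unfold nzs
    rw [h3, Polynomial.roots_one]
    rfl
  · exact h0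

/-- Stochastic matrices, without a condition on the trace. -/
theorem matStoch2 (hSTO2 : S_STO2) (hTHK : S_THK) (S : Subring ℝ) (hS : S ≠ ⊥) (n : ℕ)
    (A : Matrix (Fin n) (Fin n) ℝ) (hA : ∀ i j, A i j ∈ S)
    (hcount : (A.map (algebraMap ℝ ℂ)).charpoly.roots.count (1 : ℂ) = 1)
    (hPerron : ∀ z ∈ (A.map (algebraMap ℝ ℂ)).charpoly.roots, z ≠ (1 : ℂ) → ‖z‖ < 1)
    (hdense : ∀ m : ℕ, 0 < m → 0 ≤ (A ^ m).trace ∧ ∀ k : ℕ, 0 < k → 0 < (A ^ m).trace → 0 < (A ^ (m * k)).trace)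
    (hfix : Fix S ⟨n, A⟩) (ε : ℝ) (hε : 0 < ε) :
    ∃ n₀ : ℕ, ∀ N : ℕ, n₀ ≤ N → ∃ B : Matrix (Fin N) (Fin N) ℝ, (∀ i j, B i j ∈ S) ∧ (∀ i j, 0 ≤ B i j) ∧
      (∀ i j, B i j < ε) ∧ (∃ p : ℕ, 0 < p ∧ ∀ i j, 0 < (B ^ p) i j) ∧ (0 < A.trace → ∀ i j, 0 < B i j) ∧
      (∀ i, ∑ j, B i j = 1) ∧ Relation.ReflTransGen (ESS S) ⟨n, A⟩ ⟨N, B⟩ := by
  by_cases htr : 0 < A.trace
  · obtain ⟨n₀, h⟩ := matStoch S hS n A hA hcount hPerron hdense htr hfix ε hε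
    refine ⟨n₀, fun N hN => ?_⟩
    obtain ⟨B, h1, h2, h3, h4, h5⟩ := h N hN
    exact ⟨B, h1, fun i j => (h2 i j).le, h3, ⟨1, one_pos, by simpa using h2⟩, fun _ => h2, h4, h5⟩
  · obtain ⟨m, P, hm, hPS, hP0, hprim, hch⟩ := gsc S hS n A hA 1 one_pos (by simpa using hcount)
      (by simpa using hPerron) hdense
    have h1 : nzs A = nzs P := nzs_chain hch
    have hnz : ∀ z ∈ nzs P, ‖z‖ ≤ 1 := by
      rw [← h1]
      intro z hz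
      have hz' := (Multiset.mem_filter.mp hz).1
      by_cases h : z = 1
      · rw [h, norm_one]
      · exact (hPerron z hz' h).le
    obtain ⟨q, Q, hQS, hQ0, hQp, hQ1, hch2⟩ := stoch0 hSTO2 hTHK Pool.Agent.Y888.SJ.Evp.main S hS P hPS hP0
      hprim hnz (fix_chain hch hfix)
    have hq : 0 < q := by
      apply pos_of_nzs (A := Q)
      rw [← nzs_chain' hch2, ← h1]
      intro h0
      have h2 : (1 : ℂ) ∈ nzs A := by
        unfold nzs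
        rw [Multiset.mem_filter]
        refine ⟨Multiset.count_pos.mp (by omega), one_ne_zero⟩
      rw [h0] at h2
      exact Multiset.notMem_zero _ h2
    obtain ⟨n₀, h⟩ := sizes S hS hq Q hQS hQ0 hQp ε hε
    refine ⟨n₀, fun N hN => ?_⟩
    obtain ⟨B, h1, h2, h3, h4, h5, h6, h7⟩ := h N hN
    exact ⟨B, h1, h2, h3, h4, fun h => absurd h htr, h7 hQ1, (hch.trans hch2).tail h6⟩

end Pool.Agent.Y552.SJ
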